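import Pool.Agent.helper98.RPB.Defs

/-!
# RQ project, module PX: path expansions of matrix powers and of traces
-/

set_option autoImplicit false

open MeasureTheory Matrix
open scoped BigOperators ComplexConjugate

namespace Pool.Agent.helper8.RQ

open Pool.Agent.helper98.RPB

variable {X : Type} [Fintype X] [DecidableEq X]

/-- Sum over paths with one more step. -/
theorem PX_sum_snoc (n : ℕ) (f : (Fin (n + 1) → X) → ℂ) :
    ∑ p : Fin (n + 1) → X, f p = ∑ q : Fin n → X, ∑ z : X, f (Fin.snoc q z) := by
  rw [← (Fin.snocEquiv (fun _ : Fin (n + 1) => X)).sum_comp, Fintype.sum_prod_type_right]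
  rfl

theorem pow_apply_eq_sum (A : Matrix X X ℂ) (T : ℕ) (x y : X) :
    (A ^ T) x y = ∑ p : Pth X T, if p 0 = y ∧ p (Fin.last T) = x then
      ∏ t : Fin T, A (p t.succ) (p t.castSucc) else 0 := by
  induction T generalizing x with
  | zero =>
    rw [PX_sum_snoc 0]
    rw [Fintype.sum_unique]
    simp only [Fin.snoc, Fin.last_zero, Finset.univ_eq_empty, Finset.prod_empty, pow_zero]
    simp only [Matrix.one_apply]
    by_cases h : x = y
    · subst h
      simp
    · rw [if_neg h]
      symm
      apply Finset.sum_eq_zero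
      intro z _
      rw [if_neg]
      rintro ⟨h1, h2⟩
      simp at h1 h2
      exact h (h2.symm.trans h1)
  | succ T ih =>
    rw [pow_succ', Matrix.mul_apply, PX_sum_snoc (T + 1)]
    simp_rw [ih, Finset.mul_sum]
    rw [Finset.sum_comm]
    apply Finset.sum_congr rfl
    intro q _
    have h1 : ∀ z : X, (Fin.snoc q z : Fin (T + 1 + 1) → X) 0 = q 0 := fun z => by
      have := Fin.snoc_castSucc (α := fun _ => X) z q 0
      simpa using this
    have h2 : ∀ z : X, (Fin.snoc q z : Fin (T + 1 + 1) → X) (Fin.last (T + 1)) = z := fun z =>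
      Fin.snoc_last (α := fun _ => X) z q
    have h3 : ∀ z : X, ∏ t : Fin (T + 1), A ((Fin.snoc q z : Fin (T + 1 + 1) → X) t.succ)
        ((Fin.snoc q z : Fin (T + 1 + 1) → X) t.castSucc) =
        (∏ t : Fin T, A (q t.succ) (q t.castSucc)) * A z (q (Fin.last T)) := fun z => by
      rw [Fin.prod_univ_castSucc]
      congr 1
      · apply Finset.prod_congr rfl
        intro t _
        rw [Fin.snoc_castSucc (α := fun _ => X), Fin.succ_castSucc,
          Fin.snoc_castSucc (α := fun _ => X)]
      · rw [Fin.snoc_castSucc (α := fun _ => X), Fin.succ_last, Fin.snoc_last (α := fun _ => X)]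
    simp_rw [h1, h2, h3]
    rw [Finset.sum_eq_single (q (Fin.last T)), Finset.sum_eq_single x]
    · by_cases h : q 0 = y
      · simp [h, mul_comm]
      · simp [h]
    · intro z _ hz
      rw [if_neg (fun h => hz h.2)]
    · intro h
      exact absurd (Finset.mem_univ _) h
    · intro z _ hz
      rw [if_neg (fun h => hz h.2.symm), mul_zero]
    · intro h
      exact absurd (Finset.mem_univ _) h

theorem PX_trace_cycle (A : Matrix X X ℂ) (P : ℕ) [NeZero P] :
    Matrix.trace (A ^ P) = ∑ x : Fin P → X, ∏ j, A (x (finRotate P j)) (x j) := by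
  obtain ⟨Q, rfl⟩ : ∃ Q, P = Q + 1 := ⟨P - 1, by have := NeZero.pos P; omega⟩
  unfold Matrix.trace
  simp only [Matrix.diag_apply]
  simp_rw [pow_apply_eq_sum]
  rw [Finset.sum_comm, PX_sum_snoc (Q + 1)]
  apply Finset.sum_congr rfl
  intro q _
  have h1 : ∀ z : X, (Fin.snoc q z : Fin (Q + 1 + 1) → X) 0 = q 0 := fun z => by
    have := Fin.snoc_castSucc (α := fun _ => X) z q 0
    simpa using this
  have h2 : ∀ z : X, (Fin.snoc q z : Fin (Q + 1 + 1) → X) (Fin.last (Q + 1)) = z := fun z =>
    Fin.snoc_last (α := fun _ => X) z q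
  simp_rw [h1, h2]
  rw [Finset.sum_eq_single (q 0), Finset.sum_eq_single (q 0)]
  · rw [if_pos ⟨rfl, rfl⟩]
    apply Finset.prod_congr rfl
    intro t _
    rw [Fin.snoc_castSucc (α := fun _ => X)]
    congr 1
    induction t using Fin.lastCases with
    | last => rw [Fin.succ_last, Fin.snoc_last (α := fun _ => X), finRotate_last]
    | cast s =>
      rw [Fin.succ_castSucc, Fin.snoc_castSucc (α := fun _ => X)]
      congr 1
      rw [finRotate_succ_apply, Fin.coeSucc_eq_succ]
  · intro z _ hz
    rw [if_neg (fun h => hz h.1.symm)]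
  · intro h
    exact absurd (Finset.mem_univ _) h
  · intro z _ hz
    apply Finset.sum_eq_zero
    intro w _
    rw [if_neg (fun h => hz (h.2.trans h.1.symm))]
  · intro h
    exact absurd (Finset.mem_univ _) h

theorem trace_pow_eq_sum (M : Matrix X X ℂ) (P : ℕ) [NeZero P] :
    Matrix.trace ((M * Mᴴ) ^ P) = ∑ x : Fin P → X, ∑ y : Fin P → X,
      ∏ j, (M (x (finRotate P j)) (y j) * conj (M (x j) (y j))) := by
  rw [PX_trace_cycle]
  apply Finset.sum_congr rfl
  intro x _
  simp_rw [Matrix.mul_apply, Matrix.conjTranspose_apply]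
  rw [Finset.prod_univ_sum]
  simp only [Fintype.piFinset_univ]
  rfl

end Pool.Agent.helper8.RQ
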