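import Pool.Agent.helper98.RPB.Defs
import Pool.Agent.helper8.RQ.PX

/-!
# RQ project, module ET: the expected trace
-/

set_option autoImplicit false

open MeasureTheory Matrix
open scoped BigOperators ComplexConjugate

namespace Pool.Agent.helper8.RQ

open Pool.Agent.helper98.RPB

variable {X : Type} [Fintype X] [DecidableEq X]

theorem ET_integral_one (m : ℤ) :
    ∫ t in Set.Icc (0 : ℝ) 1, Complex.exp (2 * Real.pi * ((m : ℂ) * (t : ℂ)) * Complex.I) =
      if m = 0 then 1 else 0 := by
  rw [integral_Icc_eq_integral_Ioc, ← intervalIntegral.integral_of_le zero_le_one]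
  by_cases h : m = 0
  · subst h
    simp
  · rw [if_neg h]
    have hc : (2 * Real.pi * (m : ℂ) * Complex.I) ≠ 0 := by
      have := Real.pi_ne_zero
      simp [h, this]
    have : ∀ t : ℝ, Complex.exp (2 * Real.pi * ((m : ℂ) * (t : ℂ)) * Complex.I) =
        Complex.exp ((2 * Real.pi * (m : ℂ) * Complex.I) * t) := fun t => by
      congr 1; ring
    simp_rw [this]
    rw [integral_exp_mul_complex hc]
    have h1 : Complex.exp (2 * Real.pi * (m : ℂ) * Complex.I * ((1 : ℝ) : ℂ)) = 1 := by
      rw [Complex.exp_eq_one_iff]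
      exact ⟨m, by push_cast; ring⟩
    rw [h1]
    simp

omit [DecidableEq X] in
theorem ET_integral_phase (n : X → ℤ) :
    ∫ θ in Set.Icc (0 : X → ℝ) 1,
      Complex.exp (2 * Real.pi * (∑ x, (n x : ℂ) * (θ x : ℂ)) * Complex.I) =
      if n = 0 then 1 else 0 := by
  have h0 : (Set.Icc (0 : X → ℝ) 1) = Set.pi Set.univ (fun _ => Set.Icc (0 : ℝ) 1) := by
    rw [Set.pi_univ_Icc]; rfl
  rw [h0, volume_pi, Measure.restrict_pi_pi]
  have h1 : ∀ θ : X → ℝ, Complex.exp (2 * Real.pi * (∑ x, (n x : ℂ) * (θ x : ℂ)) * Complex.I) =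
      ∏ x, Complex.exp (2 * Real.pi * ((n x : ℂ) * (θ x : ℂ)) * Complex.I) := fun θ => by
    rw [← Complex.exp_sum, Finset.mul_sum, Finset.sum_mul]
  simp_rw [h1]
  rw [integral_fintype_prod_eq_prod (μ := fun _ : X => (volume : Measure ℝ).restrict (Set.Icc (0 : ℝ) 1))
    (f := fun x (t : ℝ) => Complex.exp (2 * Real.pi * ((n x : ℂ) * (t : ℂ)) * Complex.I))]
  simp_rw [ET_integral_one]
  rw [Finset.prod_ite_zero]
  simp only [Finset.mem_univ, true_imp_iff, Finset.prod_const_one]
  congr 1
  exact propext ⟨fun h => funext h, fun h => fun i => congrFun h i⟩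

/-- The product of the entries of `V` along a path. -/
noncomputable def ET_prod {T : ℕ} (V : Matrix X X ℂ) (p : Pth X T) : ℂ :=
  ∏ t : Fin T, V (p t.succ) (p t.castSucc)

omit [Fintype X] [DecidableEq X] in
theorem ET_norm_prod {T : ℕ} (V : Matrix X X ℂ) (p : Pth X T) : ‖ET_prod V p‖ = wt V p := by
  unfold ET_prod wt
  rw [norm_prod]

/-- The condition on one path in the expansion of a cut power. -/
def ET_Q {T : ℕ} (s : Finset X) (u v : X) (p : Pth X T) : Prop :=
  p 0 = v ∧ p (Fin.last T) = u ∧ p 0 ∈ s ∧ p (Fin.last T) ∈ s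

open Classical in
theorem ET_cut_apply (V : Matrix X X ℂ) (s : Finset X) (T : ℕ) (θ : X → ℝ) (u v : X) :
    cut s (phased V θ ^ T) u v =
      ∑ p : Pth X T, if ET_Q s u v p then ET_prod (phased V θ) p else 0 := by
  unfold cut
  rw [Matrix.of_apply, pow_apply_eq_sum]
  by_cases h : u ∈ s ∧ v ∈ s
  · rw [if_pos h]
    apply Finset.sum_congr rfl
    intro p _
    unfold ET_prod ET_Q
    by_cases h' : p 0 = v ∧ p (Fin.last T) = u
    · rw [if_pos h', if_pos]
      refine ⟨h'.1, h'.2, ?_, ?_⟩
      · rw [h'.1]; exact h.2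
      · rw [h'.2]; exact h.1
    · rw [if_neg h', if_neg]
      intro h2
      exact h' ⟨h2.1, h2.2.1⟩
  · rw [if_neg h]
    symm
    apply Finset.sum_eq_zero
    intro p _
    rw [if_neg]
    rintro ⟨h1, h2, h3, h4⟩
    apply h
    rw [← h1, ← h2]
    exact ⟨h4, h3⟩

open Classical in
theorem ET_prod_cut (V : Matrix X X ℂ) (s : Finset X) (T P : ℕ) (θ : X → ℝ)
    (x y : Fin P → X) :
    ∏ j, cut s (phased V θ ^ T) (x j) (y j) =
      ∑ a : Fin P → Pth X T, if ∀ j, ET_Q s (x j) (y j) (a j) then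
        ∏ j, ET_prod (phased V θ) (a j) else 0 := by
  simp_rw [ET_cut_apply]
  rw [Finset.prod_univ_sum]
  simp only [Fintype.piFinset_univ]
  apply Finset.sum_congr rfl
  intro a _
  rw [Finset.prod_ite_zero]
  simp only [Finset.mem_univ, true_imp_iff]

/-- The part of `Conf` that does not concern the visits. -/
def ET_C {T P : ℕ} (s : Finset X) (c : Fin P → Fin P) (a b : Fin P → Pth X T) : Prop :=
  (∀ j, a j 0 ∈ s) ∧ (∀ j, a j (Fin.last T) ∈ s) ∧ (∀ j, b j 0 = a j 0) ∧
    (∀ j, b j (Fin.last T) = a (c j) (Fin.last T))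

open Classical in
theorem ET_trace (V : Matrix X X ℂ) (s : Finset X) (T P : ℕ) [NeZero P] (θ : X → ℝ) :
    Matrix.trace ((cut s (phased V θ ^ T) * (cut s (phased V θ ^ T))ᴴ) ^ P) =
      ∑ a : Fin P → Pth X T, ∑ b : Fin P → Pth X T,
        if ET_C s (finRotate P).symm a b then
          (∏ j, ET_prod (phased V θ) (a j)) * conj (∏ j, ET_prod (phased V θ) (b j)) else 0 := by
  rw [trace_pow_eq_sum]
  have h1 : ∀ x y : Fin P → X,
      ∏ j, (cut s (phased V θ ^ T) (x (finRotate P j)) (y j) *
        conj (cut s (phased V θ ^ T) (x j) (y j))) =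
      ∑ a : Fin P → Pth X T, ∑ b : Fin P → Pth X T,
        if (∀ j, ET_Q s (x (finRotate P j)) (y j) (a j)) ∧ ∀ j, ET_Q s (x j) (y j) (b j) then
          (∏ j, ET_prod (phased V θ) (a j)) * conj (∏ j, ET_prod (phased V θ) (b j)) else 0 := by
    intro x y
    rw [Finset.prod_mul_distrib, ← map_prod, ET_prod_cut V s T P θ x y,
      ET_prod_cut V s T P θ (fun j => x (finRotate P j)) y, map_sum, Finset.sum_mul_sum]
    apply Finset.sum_congr rfl
    intro a _
    apply Finset.sum_congr rfl
    intro b _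
    by_cases ha : ∀ j, ET_Q s (x (finRotate P j)) (y j) (a j)
    · by_cases hb : ∀ j, ET_Q s (x j) (y j) (b j)
      · rw [if_pos ha, if_pos hb, if_pos ⟨ha, hb⟩]
      · rw [if_neg hb, map_zero, mul_zero, if_neg]
        exact fun h => hb h.2
    · rw [if_neg ha, zero_mul, if_neg]
      exact fun h => ha h.1
  simp_rw [h1]
  have h2 : ∀ x : Fin P → X, (∑ y : Fin P → X, ∑ a : Fin P → Pth X T, ∑ b : Fin P → Pth X T,
        if (∀ j, ET_Q s (x (finRotate P j)) (y j) (a j)) ∧ ∀ j, ET_Q s (x j) (y j) (b j) then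
          (∏ j, ET_prod (phased V θ) (a j)) * conj (∏ j, ET_prod (phased V θ) (b j)) else 0) =
      ∑ a : Fin P → Pth X T, ∑ b : Fin P → Pth X T, ∑ y : Fin P → X,
        if (∀ j, ET_Q s (x (finRotate P j)) (y j) (a j)) ∧ ∀ j, ET_Q s (x j) (y j) (b j) then
          (∏ j, ET_prod (phased V θ) (a j)) * conj (∏ j, ET_prod (phased V θ) (b j)) else 0 := by
    intro x
    rw [Finset.sum_comm]
    apply Finset.sum_congr rfl
    intro a _
    rw [Finset.sum_comm]
  simp_rw [h2]
  rw [Finset.sum_comm]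
  apply Finset.sum_congr rfl
  intro a _
  rw [Finset.sum_comm]
  apply Finset.sum_congr rfl
  intro b _
  rw [Finset.sum_eq_single (fun j => b j (Fin.last T)), Finset.sum_eq_single (fun j => b j 0)]
  · have hiff : ((∀ j, ET_Q s (b (finRotate P j) (Fin.last T)) (b j 0) (a j)) ∧
        ∀ j, ET_Q s (b j (Fin.last T)) (b j 0) (b j)) ↔ ET_C s (finRotate P).symm a b := by
      constructor
      · rintro ⟨h, h'⟩
        refine ⟨fun j => (h j).2.2.1, fun j => (h j).2.2.2, fun j => ((h j).1).symm, fun j => ?_⟩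
        have := (h ((finRotate P).symm j)).2.1
        rw [Equiv.apply_symm_apply] at this
        exact this.symm
      · rintro ⟨h0, h1, h2, h3⟩
        refine ⟨fun j => ⟨(h2 j).symm, ?_, h0 j, h1 j⟩, fun j => ⟨rfl, rfl, ?_, ?_⟩⟩
        · rw [h3, Equiv.symm_apply_apply]
        · rw [h2]; exact h0 j
        · rw [h3]; exact h1 _
    by_cases hC : ET_C s (finRotate P).symm a b
    · rw [if_pos (hiff.2 hC), if_pos hC]
    · rw [if_neg (fun h => hC (hiff.1 h)), if_neg hC]
  · intro y _ hy
    rw [if_neg]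
    rintro ⟨-, h⟩
    apply hy
    funext j
    exact ((h j).1).symm
  · intro h
    exact absurd (Finset.mem_univ _) h
  · intro x _ hx
    apply Finset.sum_eq_zero
    intro y _
    rw [if_neg]
    rintro ⟨-, h⟩
    apply hx
    funext j
    exact ((h j).2.1).symm
  · intro h
    exact absurd (Finset.mem_univ _) h

theorem ET_prod_phased (V : Matrix X X ℂ) (T P : ℕ) (θ : X → ℝ) (a : Fin P → Pth X T) :
    ∏ j, ET_prod (phased V θ) (a j) =
      Complex.exp (2 * Real.pi * (∑ x, (visits a x : ℂ) * (θ x : ℂ)) * Complex.I) *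
        ∏ j, ET_prod V (a j) := by
  unfold ET_prod phased
  simp_rw [Matrix.of_apply, Finset.prod_mul_distrib]
  congr 1
  simp_rw [← Complex.exp_sum]
  congr 1
  have h : ∑ x, (visits a x : ℂ) * (θ x : ℂ) =
      ∑ j, ∑ t : Fin T, ((θ (a j t.succ) : ℝ) : ℂ) := by
    rw [← Fintype.sum_prod_type' (f := fun (j : Fin P) (t : Fin T) => ((θ (a j t.succ) : ℝ) : ℂ))]
    rw [← Finset.sum_fiberwise_of_maps_to (s := (Finset.univ : Finset (Fin P × Fin T)))
      (t := (Finset.univ : Finset X)) (g := fun jt => a jt.1 jt.2.succ)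
      (fun i _ => Finset.mem_univ _)]
    apply Finset.sum_congr rfl
    intro x _
    rw [Finset.sum_congr rfl (g := fun _ => ((θ x : ℝ) : ℂ))]
    · rw [Finset.sum_const, nsmul_eq_mul]
      unfold visits
      congr!
    · intro jt hjt
      rw [(Finset.mem_filter.1 hjt).2]
  rw [h, Finset.mul_sum, Finset.sum_mul]
  apply Finset.sum_congr rfl
  intro j _
  rw [Finset.mul_sum, Finset.sum_mul]

theorem ET_term (V : Matrix X X ℂ) (T P : ℕ) (θ : X → ℝ) (a b : Fin P → Pth X T) :
    (∏ j, ET_prod (phased V θ) (a j)) * conj (∏ j, ET_prod (phased V θ) (b j)) =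
      ((∏ j, ET_prod V (a j)) * conj (∏ j, ET_prod V (b j))) *
      Complex.exp (2 * Real.pi * (∑ x, (((visits a x : ℤ) - (visits b x : ℤ) : ℤ) : ℂ) *
        (θ x : ℂ)) * Complex.I) := by
  rw [ET_prod_phased, ET_prod_phased, map_mul, ← Complex.exp_conj]
  have h : Complex.exp (2 * Real.pi * (∑ x, (((visits a x : ℤ) - (visits b x : ℤ) : ℤ) : ℂ) *
        (θ x : ℂ)) * Complex.I) =
      Complex.exp (2 * Real.pi * (∑ x, (visits a x : ℂ) * (θ x : ℂ)) * Complex.I) *
      Complex.exp (conj (2 * Real.pi * (∑ x, (visits b x : ℂ) * (θ x : ℂ)) * Complex.I)) := by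
    rw [← Complex.exp_add]
    congr 1
    simp only [map_mul, map_sum, map_ofNat, Complex.conj_ofReal, Complex.conj_I,
      Complex.conj_natCast]
    push_cast
    simp_rw [sub_mul]
    rw [Finset.sum_sub_distrib]
    ring
  rw [h]
  ring

open Classical in
theorem expected_trace_le (V : Matrix X X ℂ) (s : Finset X) (T P : ℕ) [NeZero P] :
    ∫ θ in Set.Icc (0 : X → ℝ) 1,
      (Matrix.trace ((cut s (phased V θ ^ T) * (cut s (phased V θ ^ T))ᴴ) ^ P)).re ≤
      ∑ a : Fin P → Pth X T, ∑ b : Fin P → Pth X T,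
        if Conf s (finRotate P).symm a b then (∏ j, wt V (a j)) * (∏ j, wt V (b j)) else 0 := by
  set E : (X → ℤ) → (X → ℝ) → ℂ := fun n θ =>
    Complex.exp (2 * Real.pi * (∑ x, (n x : ℂ) * (θ x : ℂ)) * Complex.I) with hE
  set K : (Fin P → Pth X T) → (Fin P → Pth X T) → ℂ := fun a b =>
    (∏ j, ET_prod V (a j)) * conj (∏ j, ET_prod V (b j)) with hK
  set N : (Fin P → Pth X T) → (Fin P → Pth X T) → X → ℤ := fun a b x =>
    (visits a x : ℤ) - (visits b x : ℤ) with hN
  have hEc : ∀ n, Continuous (E n) := by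
    intro n
    rw [hE]
    fun_prop
  have hEi : ∀ n, Integrable (E n) (volume.restrict (Set.Icc (0 : X → ℝ) 1)) := by
    intro n
    exact (hEc n).continuousOn.integrableOn_compact isCompact_Icc
  have htr : ∀ θ : X → ℝ,
      (Matrix.trace ((cut s (phased V θ ^ T) * (cut s (phased V θ ^ T))ᴴ) ^ P)).re =
      ∑ a : Fin P → Pth X T, ∑ b : Fin P → Pth X T,
        ((if ET_C s (finRotate P).symm a b then K a b else 0) * E (N a b) θ).re := by
    intro θ
    rw [ET_trace, Complex.re_sum]
    apply Finset.sum_congr rfl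
    intro a _
    rw [Complex.re_sum]
    apply Finset.sum_congr rfl
    intro b _
    congr 1
    by_cases hC : ET_C s (finRotate P).symm a b
    · rw [if_pos hC, if_pos hC, ET_term]
    · rw [if_neg hC, if_neg hC, zero_mul]
  simp_rw [htr]
  have hint : ∀ a b : Fin P → Pth X T, Integrable (fun θ =>
      ((if ET_C s (finRotate P).symm a b then K a b else 0) * E (N a b) θ))
      (volume.restrict (Set.Icc (0 : X → ℝ) 1)) := fun a b => (hEi _).const_mul _
  have hintre : ∀ a b : Fin P → Pth X T, Integrable (fun θ =>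
      ((if ET_C s (finRotate P).symm a b then K a b else 0) * E (N a b) θ).re)
      (volume.restrict (Set.Icc (0 : X → ℝ) 1)) := fun a b => (hint a b).re
  rw [integral_finsetSum _ (fun a _ => integrable_finsetSum _ (fun b _ => hintre a b))]
  apply Finset.sum_le_sum
  intro a _
  rw [integral_finsetSum _ (fun b _ => hintre a b)]
  apply Finset.sum_le_sum
  intro b _
  have h1 : ∫ θ in Set.Icc (0 : X → ℝ) 1,
      ((if ET_C s (finRotate P).symm a b then K a b else 0) * E (N a b) θ).re =
      ((if ET_C s (finRotate P).symm a b then K a b else 0) * (if N a b = 0 then 1 else 0)).re := by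
    rw [← ET_integral_phase (N a b)]
    rw [← integral_const_mul]
    exact integral_re (hint a b)
  rw [h1]
  by_cases hC : ET_C s (finRotate P).symm a b
  · rw [if_pos hC]
    by_cases h0 : N a b = 0
    · rw [if_pos h0, if_pos]
      · rw [mul_one]
        refine le_trans (Complex.re_le_norm _) ?_
        rw [hK]
        simp only
        rw [norm_mul, RCLike.norm_conj, norm_prod, norm_prod]
        simp_rw [ET_norm_prod]
        exact le_refl _
      · refine ⟨hC.1, hC.2.1, hC.2.2.1, hC.2.2.2, fun x => ?_⟩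
        have := congrFun h0 x
        simp only [hN, Pi.zero_apply] at this
        omega
    · rw [if_neg h0, mul_zero, Complex.zero_re]
      split_ifs
      · apply mul_nonneg
        · exact Finset.prod_nonneg fun j _ => Finset.prod_nonneg fun t _ => norm_nonneg _
        · exact Finset.prod_nonneg fun j _ => Finset.prod_nonneg fun t _ => norm_nonneg _
      · exact le_refl _
  · rw [if_neg hC, zero_mul, Complex.zero_re]
    split_ifs
    · apply mul_nonneg
      · exact Finset.prod_nonneg fun j _ => Finset.prod_nonneg fun t _ => norm_nonneg _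
      · exact Finset.prod_nonneg fun j _ => Finset.prod_nonneg fun t _ => norm_nonneg _
    · exact le_refl _

end Pool.Agent.helper8.RQ
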